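import Mathlib

set_option autoImplicit false

namespace Pool.Agent.H99.HalfDense

open Finset

variable {n : ℕ}

/-- bilinear form of the adjacency matrix -/
noncomputable def B (G : SimpleGraph (Fin n)) [DecidableRel G.Adj] (f g : Fin n → ℝ) : ℝ :=
  ∑ u, ∑ v, (if G.Adj u v then f u * g v else 0)

/-- counting ordered adjacent pairs inside `W` -/
theorem ncard_inside (G : SimpleGraph (Fin n)) [DecidableRel G.Adj] (W : Finset (Fin n)) :
    B G (fun v => if v ∈ W then (1 : ℝ) else 0) (fun v => if v ∈ W then (1 : ℝ) else 0) =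
      2 * (({e : Sym2 (Fin n) | e ∈ G.edgeSet ∧ ∀ v ∈ e, v ∈ W}).ncard : ℝ) := by
  classical
  let H : SimpleGraph (Fin n) :=
    { Adj := fun u v => G.Adj u v ∧ u ∈ W ∧ v ∈ W
      symm := ⟨fun u v h => ⟨h.1.symm, h.2.2, h.2.1⟩⟩
      loopless := ⟨fun u h => G.loopless.irrefl u h.1⟩ }
  have hset : {e : Sym2 (Fin n) | e ∈ G.edgeSet ∧ ∀ v ∈ e, v ∈ W} = H.edgeSet := by
    ext e
    induction e using Sym2.ind with
    | _ u v =>
      simp [H, SimpleGraph.mem_edgeSet]
  have h1 := H.sum_degrees_eq_twice_card_edges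
  have h2 : (({e : Sym2 (Fin n) | e ∈ G.edgeSet ∧ ∀ v ∈ e, v ∈ W}).ncard) = #H.edgeFinset := by
    rw [hset, ← SimpleGraph.coe_edgeFinset, Set.ncard_coe_finset]
  have h3 : B G (fun v => if v ∈ W then (1 : ℝ) else 0) (fun v => if v ∈ W then (1 : ℝ) else 0)
      = ((∑ v, H.degree v : ℕ) : ℝ) := by
    unfold B
    push_cast
    refine Finset.sum_congr rfl fun u _ => ?_
    rw [← SimpleGraph.card_neighborFinset_eq_degree, SimpleGraph.neighborFinset_eq_filter,
      Finset.card_filter]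
    push_cast
    refine Finset.sum_congr rfl fun v _ => ?_
    by_cases h : G.Adj u v <;> by_cases hu : u ∈ W <;> by_cases hv : v ∈ W <;> simp [H, h, hu, hv]
  rw [h3, h1, h2]
  push_cast
  ring

theorem B_comm (G : SimpleGraph (Fin n)) [DecidableRel G.Adj] (f g : Fin n → ℝ) :
    B G f g = B G g f := by
  unfold B
  rw [Finset.sum_comm]
  refine Finset.sum_congr rfl fun u _ => Finset.sum_congr rfl fun v _ => ?_
  by_cases h : G.Adj u v
  · simp [h, h.symm, mul_comm]
  · have h' : ¬ G.Adj v u := fun h'' => h h''.symm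
    simp [h, h']

theorem B_lin (G : SimpleGraph (Fin n)) [DecidableRel G.Adj] (f f' g : Fin n → ℝ) (a b : ℝ) :
    B G (fun v => a * f v + b * f' v) g = a * B G f g + b * B G f' g := by
  unfold B
  rw [Finset.mul_sum, Finset.mul_sum, ← Finset.sum_add_distrib]
  refine Finset.sum_congr rfl fun u _ => ?_
  rw [Finset.mul_sum, Finset.mul_sum, ← Finset.sum_add_distrib]
  refine Finset.sum_congr rfl fun v _ => ?_
  split_ifs
  · ring
  · ring

/-- quadratic expansion -/
theorem Q_lin (G : SimpleGraph (Fin n)) [DecidableRel G.Adj] (f f' : Fin n → ℝ) (a b : ℝ) :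
    B G (fun v => a * f v + b * f' v) (fun v => a * f v + b * f' v) =
      a ^ 2 * B G f f + 2 * a * b * B G f f' + b ^ 2 * B G f' f' := by
  rw [B_lin, B_comm G f, B_comm G f', B_lin, B_lin, B_comm G f' f]
  ring

/-- along a direction `e_u - e_v` the form is concave -/
theorem Q_dir (G : SimpleGraph (Fin n)) [DecidableRel G.Adj] (u v : Fin n) :
    B G (fun w => (if w = u then (1 : ℝ) else 0) - (if w = v then 1 else 0))
      (fun w => (if w = u then (1 : ℝ) else 0) - (if w = v then 1 else 0)) ≤ 0 := by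
  have hb : ∀ x y : Fin n, B G (fun w => (if w = x then (1 : ℝ) else 0))
      (fun w => (if w = y then (1 : ℝ) else 0)) = if G.Adj x y then 1 else 0 := by
    intro x y
    unfold B
    rw [Finset.sum_eq_single x, Finset.sum_eq_single y]
    · simp
    · intro b _ hb; simp [hb]
    · simp
    · intro b _ hb
      refine Finset.sum_eq_zero fun c _ => ?_
      simp [hb]
    · simp
  have h := Q_lin G (fun w => (if w = u then (1 : ℝ) else 0)) (fun w => (if w = v then (1 : ℝ) else 0))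
    1 (-1)
  simp only [hb] at h
  have h2 : (fun w => (if w = u then (1 : ℝ) else 0) - (if w = v then 1 else 0)) =
      (fun w => 1 * (if w = u then (1 : ℝ) else 0) + (-1) * (if w = v then (1 : ℝ) else 0)) := by
    funext w; ring
  rw [h2, h]
  have hu : ¬ G.Adj u u := G.loopless.irrefl u
  have hv : ¬ G.Adj v v := G.loopless.irrefl v
  simp only [hu, hv, if_false]
  split_ifs <;> norm_num

/-- pipage rounding -/
theorem pipage (G : SimpleGraph (Fin n)) [DecidableRel G.Adj] (m : ℕ) :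
    ∀ (k : ℕ) (f : Fin n → ℝ), (∀ v, 0 ≤ f v ∧ f v ≤ 1) → ∑ v, f v = m →
      (Finset.univ.filter (fun v => 0 < f v ∧ f v < 1)).card = k →
      ∃ W : Finset (Fin n), W.card = m ∧
        B G (fun v => if v ∈ W then (1 : ℝ) else 0) (fun v => if v ∈ W then (1 : ℝ) else 0)
          ≤ B G f f := by
  classical
  intro k
  induction k using Nat.strong_induction_on with
  | _ k ih =>
  intro f hf hsum hk
  by_cases hS : (Finset.univ.filter (fun v => 0 < f v ∧ f v < 1)) = ∅
  · -- integral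
    refine ⟨Finset.univ.filter (fun v => f v = 1), ?_, ?_⟩
    all_goals
      have hfeq : f = fun v => if v ∈ (Finset.univ.filter (fun v => f v = 1)) then (1 : ℝ) else 0 := by
        funext v
        by_cases h1 : f v = 1
        · simp [h1]
        · have h0 : f v = 0 := by
            by_contra h0
            have : v ∈ (Finset.univ.filter (fun v => 0 < f v ∧ f v < 1)) := by
              simp only [Finset.mem_filter, Finset.mem_univ, true_and]
              exact ⟨lt_of_le_of_ne (hf v).1 (Ne.symm h0), lt_of_le_of_ne (hf v).2 h1⟩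
            rw [hS] at this
            simp at this
          simp [h0]
    · have h2 : ∑ v, f v = ((Finset.univ.filter (fun v => f v = 1)).card : ℝ) := by
        conv_lhs => rw [hfeq]
        simp
      rw [hsum] at h2
      exact_mod_cast h2.symm
    · rw [← hfeq]
  · obtain ⟨u, hu⟩ := Finset.nonempty_iff_ne_empty.mpr hS
    have hu' : 0 < f u ∧ f u < 1 := by simpa using hu
    -- second fractional coordinate
    obtain ⟨v, hvu, hv'⟩ : ∃ v, v ≠ u ∧ (0 < f v ∧ f v < 1) := by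
      by_contra hcon
      push Not at hcon
      have hint : ∀ v, v ≠ u → f v = if f v = 1 then 1 else 0 := by
        intro v hv
        by_cases h1 : f v = 1
        · simp [h1]
        · simp only [h1, if_false]
          by_contra h0
          have := hcon v hv (lt_of_le_of_ne (hf v).1 (Ne.symm h0))
          exact h1 (le_antisymm (hf v).2 this)
      have h3 : ∑ v ∈ Finset.univ.erase u, f v =
          (((Finset.univ.erase u).filter (fun v => f v = 1)).card : ℝ) := by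
        rw [Finset.sum_congr rfl (fun v hv => hint v (Finset.ne_of_mem_erase hv))]
        simp
      have h4 := Finset.add_sum_erase Finset.univ f (Finset.mem_univ u)
      rw [h3, hsum] at h4
      have h5 : f u = (m : ℝ) - (((Finset.univ.erase u).filter (fun v => f v = 1)).card : ℝ) := by
        linarith
      have h6 : f u = (((m : ℤ) - (((Finset.univ.erase u).filter (fun v => f v = 1)).card : ℤ) : ℤ) : ℝ) := by
        rw [h5]; push_cast; ring
      rw [h6] at hu'
      have h7 : (0 : ℤ) < ((m : ℤ) - (((Finset.univ.erase u).filter (fun v => f v = 1)).card : ℤ)) := by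
        exact_mod_cast hu'.1
      have h8 : ((m : ℤ) - (((Finset.univ.erase u).filter (fun v => f v = 1)).card : ℤ)) < 1 := by
        exact_mod_cast hu'.2
      omega
    -- one step lemma
    have step : ∀ x y : Fin n, x ≠ y → (0 < f x ∧ f x < 1) → (0 < f y ∧ f y < 1) →
        B G f (fun w => (if w = x then (1 : ℝ) else 0) - (if w = y then 1 else 0)) ≤ 0 →
        ∃ W : Finset (Fin n), W.card = m ∧
        B G (fun v => if v ∈ W then (1 : ℝ) else 0) (fun v => if v ∈ W then (1 : ℝ) else 0)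
          ≤ B G f f := by
      intro x y hxy hx hy hL
      set d : Fin n → ℝ := fun w => (if w = x then (1 : ℝ) else 0) - (if w = y then 1 else 0) with hd
      set t : ℝ := min (1 - f x) (f y) with ht
      have ht0 : 0 < t := lt_min (by linarith) hy.1
      have htx : t ≤ 1 - f x := min_le_left _ _
      have hty : t ≤ f y := min_le_right _ _
      set g : Fin n → ℝ := fun w => 1 * f w + t * d w with hg
      have hdx : d x = 1 := by simp [hd, hxy]
      have hdy : d y = -1 := by simp [hd, hxy.symm]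
      have hdo : ∀ w, w ≠ x → w ≠ y → d w = 0 := by
        intro w h1 h2; simp [hd, h1, h2]
      have hgx : g x = f x + t := by simp only [hg, hdx]; ring
      have hgy : g y = f y - t := by simp only [hg, hdy]; ring
      have hgo : ∀ w, w ≠ x → w ≠ y → g w = f w := by
        intro w h1 h2; simp only [hg, hdo w h1 h2]; ring
      have hg01 : ∀ w, 0 ≤ g w ∧ g w ≤ 1 := by
        intro w
        by_cases h1 : w = x
        · subst h1; rw [hgx]; constructor <;> linarith
        · by_cases h2 : w = y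
          · subst h2; rw [hgy]; constructor <;> linarith
          · rw [hgo w h1 h2]; exact hf w
      have hgsum : ∑ w, g w = m := by
        have hdsum : ∑ w, d w = 0 := by
          simp [hd, Finset.sum_sub_distrib]
        simp only [hg, Finset.sum_add_distrib, ← Finset.mul_sum, hdsum, hsum]
        ring
      have hQ : B G g g ≤ B G f f := by
        have h1 := Q_lin G f d 1 t
        rw [← hg] at h1
        have h2 := Q_dir G x y
        rw [← hd] at h2
        rw [h1]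
        have h3 : t * B G f d ≤ 0 := mul_nonpos_of_nonneg_of_nonpos ht0.le hL
        have h4 : t ^ 2 * B G d d ≤ 0 := mul_nonpos_of_nonneg_of_nonpos (sq_nonneg t) h2
        nlinarith
      have hlt : (Finset.univ.filter (fun v => 0 < g v ∧ g v < 1)).card < k := by
        rw [← hk]
        apply Finset.card_lt_card
        refine ⟨?_, ?_⟩
        · intro w hw
          simp only [Finset.mem_filter, Finset.mem_univ, true_and] at hw ⊢
          by_cases h1 : w = x
          · subst h1; exact hx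
          · by_cases h2 : w = y
            · subst h2; exact hy
            · rw [hgo w h1 h2] at hw; exact hw
        · intro hsub
          have hx2 := hsub (show x ∈ _ by simpa using hx)
          have hy2 := hsub (show y ∈ _ by simpa using hy)
          simp only [Finset.mem_filter, Finset.mem_univ, true_and] at hx2 hy2
          rw [hgx] at hx2
          rw [hgy] at hy2
          rcases min_choice (1 - f x) (f y) with h | h
          · rw [← ht] at h; linarith [hx2.2]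
          · rw [← ht] at h; linarith [hy2.1]
      obtain ⟨W, hW, hWQ⟩ := ih _ hlt g hg01 hgsum rfl
      exact ⟨W, hW, hWQ.trans hQ⟩
    rcases le_total (B G f (fun w => (if w = u then (1 : ℝ) else 0) - (if w = v then 1 else 0))) 0 with h | h
    · exact step u v hvu.symm hu' hv' h
    · refine step v u hvu hv' hu' ?_
      have hneg : (fun w => (if w = v then (1 : ℝ) else 0) - (if w = u then (1:ℝ) else 0)) =
          (fun w => (-1) * ((if w = u then (1 : ℝ) else 0) - (if w = v then 1 else 0)) + 0 * (0:ℝ)) := by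
        funext w; ring
      rw [hneg, B_comm, B_lin G _ (fun _ => 0), B_comm]
      linarith


/-- the form evaluated on `1_X` is the sum over `v ∈ X` of the degree of `v` into `X` -/
theorem B_ind (G : SimpleGraph (Fin n)) [DecidableRel G.Adj] (X : Finset (Fin n)) :
    B G (fun v => if v ∈ X then (1 : ℝ) else 0) (fun v => if v ∈ X then (1 : ℝ) else 0) =
      ∑ v ∈ X, ((X.filter (fun w => G.Adj v w)).card : ℝ) := by
  classical
  unfold B
  rw [← Finset.sum_filter_add_sum_filter_not Finset.univ (fun v => v ∈ X)]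
  have h1 : ∑ x ∈ Finset.univ.filter (fun v => ¬ v ∈ X),
      ∑ v, (if G.Adj x v then (if x ∈ X then (1 : ℝ) else 0) * (if v ∈ X then (1 : ℝ) else 0) else 0) = 0 := by
    refine Finset.sum_eq_zero fun x hx => Finset.sum_eq_zero fun v _ => ?_
    simp only [Finset.mem_filter, Finset.mem_univ, true_and] at hx
    simp [hx]
  rw [h1, add_zero]
  have h2 : Finset.univ.filter (fun v => v ∈ X) = X := by
    ext v; simp
  rw [h2]
  refine Finset.sum_congr rfl fun x hx => ?_
  rw [Finset.card_filter]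
  push_cast
  rw [← Finset.sum_filter_add_sum_filter_not Finset.univ (fun v => v ∈ X)]
  have h3 : ∑ v ∈ Finset.univ.filter (fun v => ¬ v ∈ X),
      (if G.Adj x v then (if x ∈ X then (1 : ℝ) else 0) * (if v ∈ X then (1 : ℝ) else 0) else 0) = 0 := by
    refine Finset.sum_eq_zero fun v hv => ?_
    simp only [Finset.mem_filter, Finset.mem_univ, true_and] at hv
    simp [hv]
  rw [h3, add_zero, h2]
  refine Finset.sum_congr rfl fun v hv => ?_
  simp [hx, hv]

theorem abs_B_le (G : SimpleGraph (Fin n)) [DecidableRel G.Adj] (f g : Fin n → ℝ)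
    (hf : ∀ v, |f v| ≤ 1) (hg : ∀ v, |g v| ≤ 1) : |B G f g| ≤ (n : ℝ) ^ 2 := by
  unfold B
  calc |∑ u, ∑ v, (if G.Adj u v then f u * g v else 0)|
      ≤ ∑ u : Fin n, ∑ v : Fin n, (1 : ℝ) := by
        refine (Finset.abs_sum_le_sum_abs _ _).trans (Finset.sum_le_sum fun u _ => ?_)
        refine (Finset.abs_sum_le_sum_abs _ _).trans (Finset.sum_le_sum fun v _ => ?_)
        split_ifs
        · rw [abs_mul]
          exact mul_le_one₀ (hf u) (abs_nonneg _) (hg v)
        · simp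
    _ = (n : ℝ) ^ 2 := by simp [sq]

/-- Main inequality: every vertex set spans almost the average density. -/
theorem main_ineq (G : SimpleGraph (Fin n)) [DecidableRel G.Adj] (c ε s β : ℝ)
    (hn : 3 ≤ n) (hc : 0 < c) (hs0 : 0 < s) (hs : s ≤ 1 / 3) (hε : ε * c / 2 ≤ s ^ 2)
    (hβ : β = ((n / 2 : ℕ) : ℝ) / n)
    (hsn : 2 ≤ s * (n : ℝ) ^ 2)
    (hlow : ∀ f : Fin n → ℝ, (∀ v, 0 ≤ f v ∧ f v ≤ 1) → ∑ v, f v = ((n / 2 : ℕ) : ℝ) →
      (1 - ε) * c * (n : ℝ) ^ 2 / 2 ≤ B G f f)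
    (htot1 : B G (fun _ => 1) (fun _ => 1) ≤ 2 * c * (n : ℝ) ^ 2)
    (htot2 : 2 * c * (n : ℝ) ^ 2 - 2 ≤ B G (fun _ => 1) (fun _ => 1))
    (X : Finset (Fin n)) :
    2 * c * (X.card : ℝ) ^ 2 - 19 * s * (n : ℝ) ^ 2 ≤
      B G (fun v => if v ∈ X then (1 : ℝ) else 0) (fun v => if v ∈ X then (1 : ℝ) else 0) := by
  classical
  have hn0 : (0 : ℝ) < n := by exact_mod_cast (by omega : 0 < n)
  have hβ1 : 1 / 3 ≤ β := by
    rw [hβ, le_div_iff₀ hn0]
    have : n ≤ 3 * (n / 2) := by omega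
    have : (n : ℝ) ≤ 3 * ((n / 2 : ℕ) : ℝ) := by exact_mod_cast this
    linarith
  have hβ2 : β ≤ 1 / 2 := by
    rw [hβ, div_le_iff₀ hn0]
    have : 2 * (n / 2) ≤ n := by omega
    have : 2 * ((n / 2 : ℕ) : ℝ) ≤ (n : ℝ) := by exact_mod_cast this
    linarith
  have hβn : β * n = ((n / 2 : ℕ) : ℝ) := by rw [hβ]; field_simp
  set ξ : ℝ := (X.card : ℝ) / n with hξ
  have hξn : ξ * n = X.card := by rw [hξ]; field_simp
  have hξ0 : 0 ≤ ξ := by positivity
  have hξ1 : ξ ≤ 1 := by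
    rw [hξ, div_le_one hn0]
    have := X.card_le_univ
    simp only [Fintype.card_fin] at this
    exact_mod_cast this
  set iX : Fin n → ℝ := fun v => if v ∈ X then (1 : ℝ) else 0 with hiX
  set x : Fin n → ℝ := fun v => 1 * iX v + (-ξ) * (1 : ℝ) with hx
  have hxabs : ∀ v, |x v| ≤ 1 := by
    intro v
    rw [abs_le]
    simp only [hx, hiX]
    split_ifs <;> constructor <;> linarith
  have hxsum : ∑ v, x v = 0 := by
    simp only [hx, hiX, Finset.sum_add_distrib, ← Finset.mul_sum]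
    simp
    linarith
  set D := B G (fun _ => 1) x with hD
  set R := B G x x with hR
  set T := B G (fun _ => 1) (fun _ => 1) with hT
  have hRabs : |R| ≤ (n : ℝ) ^ 2 := abs_B_le G x x hxabs hxabs
  have hTβ : β ^ 2 * T ≤ c * (n : ℝ) ^ 2 / 2 := by
    have h1 : β ^ 2 ≤ 1 / 4 := by
      have := mul_le_mul hβ2 hβ2 (by linarith) (by norm_num)
      rw [sq]; linarith
    have h2 : 0 ≤ 2 * c * (n : ℝ) ^ 2 := by positivity
    calc β ^ 2 * T ≤ β ^ 2 * (2 * c * (n : ℝ) ^ 2) := by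
          exact mul_le_mul_of_nonneg_left htot1 (sq_nonneg β)
      _ ≤ 1 / 4 * (2 * c * (n : ℝ) ^ 2) := mul_le_mul_of_nonneg_right h1 h2
      _ = _ := by ring
  -- the basic inequality
  have hbasic : ∀ t : ℝ, |t| ≤ 1 / 3 → -(s ^ 2) * (n : ℝ) ^ 2 ≤ 2 * β * t * D + t ^ 2 * R := by
    intro t ht
    have hft : ∀ v, 0 ≤ β * (1 : ℝ) + t * x v ∧ β * (1 : ℝ) + t * x v ≤ 1 := by
      intro v
      have h1 : |t * x v| ≤ 1 / 3 := by
        rw [abs_mul]
        calc |t| * |x v| ≤ (1 / 3) * 1 := mul_le_mul ht (hxabs v) (abs_nonneg _) (by norm_num)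
          _ = 1 / 3 := by norm_num
      rw [abs_le] at h1
      constructor <;> linarith [h1.1, h1.2]
    have hfsum : ∑ v, (β * (1 : ℝ) + t * x v) = ((n / 2 : ℕ) : ℝ) := by
      rw [Finset.sum_add_distrib, ← Finset.mul_sum Finset.univ x, hxsum, Finset.sum_const,
        Finset.card_univ, Fintype.card_fin, nsmul_eq_mul]
      rw [← hβn]; ring
    have h1 := hlow (fun v => β * (1 : ℝ) + t * x v) hft hfsum
    rw [Q_lin G (fun _ => (1 : ℝ)) x β t] at h1
    rw [← hT, ← hD, ← hR] at h1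
    have h2 : ε * c / 2 * (n : ℝ) ^ 2 ≤ s ^ 2 * (n : ℝ) ^ 2 :=
      mul_le_mul_of_nonneg_right hε (sq_nonneg _)
    have e1 : (1 - ε) * c * (n : ℝ) ^ 2 / 2 = c * (n : ℝ) ^ 2 / 2 - ε * c / 2 * (n : ℝ) ^ 2 := by
      ring
    rw [e1] at h1
    have e2 : -(s ^ 2) * (n : ℝ) ^ 2 = -(s ^ 2 * (n : ℝ) ^ 2) := by ring
    rw [e2]
    linarith
  have hDabs : |D| ≤ 3 * s * (n : ℝ) ^ 2 := by
    have h1 := hbasic s (by rw [abs_of_pos hs0]; exact hs)
    have h2 := hbasic (-s) (by rw [abs_neg, abs_of_pos hs0]; exact hs)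
    have hR1 : R ≤ (n : ℝ) ^ 2 := (abs_le.mp hRabs).2
    have h3 : s ^ 2 * R ≤ s ^ 2 * (n : ℝ) ^ 2 := mul_le_mul_of_nonneg_left hR1 (sq_nonneg s)
    have e2 : -(s ^ 2) * (n : ℝ) ^ 2 = -(s ^ 2 * (n : ℝ) ^ 2) := by ring
    have e3 : 2 * β * -s * D + (-s) ^ 2 * R = -(2 * β * s * D) + s ^ 2 * R := by ring
    rw [e2] at h1 h2
    rw [e3] at h2
    have h4 : 2 * β * s * |D| ≤ 2 * (s ^ 2 * (n : ℝ) ^ 2) := by
      rcases abs_cases D with ⟨h, _⟩ | ⟨h, _⟩
      · rw [h]; linarith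
      · rw [h]
        have e4 : 2 * β * s * -D = -(2 * β * s * D) := by ring
        rw [e4]; linarith
    have h5 : 2 / 3 * (s * |D|) ≤ 2 * β * s * |D| := by
      have h7 : 0 ≤ s * |D| := by positivity
      have e5 : 2 * β * s * |D| = 2 * β * (s * |D|) := by ring
      rw [e5]
      exact mul_le_mul_of_nonneg_right (by linarith) h7
    have h6 : s * (|D|) ≤ s * (3 * s * (n : ℝ) ^ 2) := by
      have e6 : s * (3 * s * (n : ℝ) ^ 2) = 3 * (s ^ 2 * (n : ℝ) ^ 2) := by ring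
      rw [e6]; linarith
    exact le_of_mul_le_mul_left h6 hs0
  have hRlow : -(9 * s ^ 2 * (n : ℝ) ^ 2) - 9 * s * (n : ℝ) ^ 2 ≤ R := by
    have h1 := hbasic (1 / 3) (by rw [abs_of_pos (by norm_num)])
    have h2 : β * D ≤ 1 / 2 * |D| := by
      calc β * D ≤ β * |D| := mul_le_mul_of_nonneg_left (le_abs_self D) (by linarith)
        _ ≤ 1 / 2 * |D| := mul_le_mul_of_nonneg_right hβ2 (abs_nonneg D)
    have h3 : 2 * β * (1 / 3) * D + (1 / 3) ^ 2 * R = 2 / 3 * (β * D) + 1 / 9 * R := by ring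
    rw [h3] at h1
    have h4 : s ^ 2 * (n : ℝ) ^ 2 = s ^ 2 * (n : ℝ) ^ 2 := rfl
    have h5 : 9 * s ^ 2 * (n : ℝ) ^ 2 = 9 * (s ^ 2 * (n : ℝ) ^ 2) := by ring
    have h6 : 9 * s * (n : ℝ) ^ 2 = 3 * (3 * s * (n : ℝ) ^ 2) := by ring
    have h7 : -(s ^ 2) * (n : ℝ) ^ 2 = -(s ^ 2 * (n : ℝ) ^ 2) := by ring
    rw [h7] at h1
    rw [h5, h6]
    linarith
  have hiXeq : iX = fun v => 1 * x v + ξ * (1 : ℝ) := by
    funext v; simp only [hx]; ring
  have hexp := Q_lin G x (fun _ => (1 : ℝ)) 1 ξ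
  rw [← hiXeq, B_comm G x (fun _ => (1 : ℝ)), ← hT, ← hD, ← hR] at hexp
  rw [hexp]
  have h1 : ξ ^ 2 * (2 * c * (n : ℝ) ^ 2 - 2) ≤ ξ ^ 2 * T :=
    mul_le_mul_of_nonneg_left htot2 (sq_nonneg ξ)
  have h2 : ξ ^ 2 * (2 * c * (n : ℝ) ^ 2 - 2) = 2 * c * (X.card : ℝ) ^ 2 - 2 * ξ ^ 2 := by
    rw [← hξn]; ring
  have h3 : ξ ^ 2 ≤ 1 := pow_le_one₀ hξ0 hξ1
  have h4 : -(3 * s * (n : ℝ) ^ 2) ≤ ξ * D := by
    have : -(ξ * |D|) ≤ ξ * D := by
      have := mul_le_mul_of_nonneg_left (neg_abs_le D) hξ0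
      linarith
    have h5 : ξ * |D| ≤ 1 * (3 * s * (n : ℝ) ^ 2) :=
      mul_le_mul hξ1 hDabs (abs_nonneg _) (by norm_num)
    linarith
  have h6 : s ^ 2 * (n : ℝ) ^ 2 ≤ 1 / 3 * s * (n : ℝ) ^ 2 := by
    have : s ^ 2 ≤ 1 / 3 * s := by
      rw [sq]; exact mul_le_mul_of_nonneg_right hs hs0.le
    exact mul_le_mul_of_nonneg_right this (sq_nonneg _)
  have h7 : 2 * (1 : ℝ) * ξ * D = 2 * (ξ * D) := by ring
  have h8 : (1 : ℝ) ^ 2 * R = R := by ring
  rw [h7, h8]
  have e1 : 9 * s ^ 2 * (n : ℝ) ^ 2 = 9 * (s ^ 2 * (n : ℝ) ^ 2) := by ring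
  have e2 : 9 * s * (n : ℝ) ^ 2 = 9 * (s * (n : ℝ) ^ 2) := by ring
  have e3 : 3 * s * (n : ℝ) ^ 2 = 3 * (s * (n : ℝ) ^ 2) := by ring
  have e4 : 1 / 3 * s * (n : ℝ) ^ 2 = 1 / 3 * (s * (n : ℝ) ^ 2) := by ring
  have e5 : 19 * s * (n : ℝ) ^ 2 = 19 * (s * (n : ℝ) ^ 2) := by ring
  rw [e1, e2] at hRlow
  rw [e3] at h4
  rw [e4] at h6
  rw [e5]
  linarith

/-- greedy clique finding -/
theorem greedy (G : SimpleGraph (Fin n)) [DecidableRel G.Adj] (c ρ s : ℝ) (K : ℕ)
    (hn : 0 < n) (hc : 0 < c) (hρ0 : 0 < ρ) (hρ1 : ρ ≤ 1) (hρc : ρ ≤ c)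
    (hs : 19 * s ≤ c * (ρ ^ K) ^ 2)
    (hden : ∀ X : Finset (Fin n), 2 * c * (X.card : ℝ) ^ 2 - 19 * s * (n : ℝ) ^ 2 ≤
      B G (fun v => if v ∈ X then (1 : ℝ) else 0) (fun v => if v ∈ X then (1 : ℝ) else 0)) :
    ∀ j : ℕ, j ≤ K → ∀ X : Finset (Fin n), ρ ^ (K - j) * (n : ℝ) ≤ X.card →
      ∃ t : Finset (Fin n), t ⊆ X ∧ G.IsNClique j t := by
  classical
  have hn0 : (0 : ℝ) < n := by exact_mod_cast hn
  intro j
  induction j with
  | zero =>
    intro _ X _
    exact ⟨∅, Finset.empty_subset _, by simp [SimpleGraph.isNClique_iff]⟩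
  | succ j ih =>
    intro hj X hX
    have hXpos : (0 : ℝ) < X.card := lt_of_lt_of_le (by positivity) hX
    have h1 := hden X
    have h2 : 19 * s * (n : ℝ) ^ 2 ≤ c * (X.card : ℝ) ^ 2 := by
      have h3 : ρ ^ K * (n : ℝ) ≤ X.card := by
        refine le_trans ?_ hX
        refine mul_le_mul_of_nonneg_right ?_ hn0.le
        exact pow_le_pow_of_le_one hρ0.le hρ1 (Nat.sub_le _ _)
      have h4 : (ρ ^ K * (n : ℝ)) ^ 2 ≤ (X.card : ℝ) ^ 2 := by
        have : 0 ≤ ρ ^ K * (n : ℝ) := by positivity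
        nlinarith
      calc 19 * s * (n : ℝ) ^ 2 ≤ c * (ρ ^ K) ^ 2 * (n : ℝ) ^ 2 :=
            mul_le_mul_of_nonneg_right hs (sq_nonneg _)
        _ = c * (ρ ^ K * (n : ℝ)) ^ 2 := by ring
        _ ≤ c * (X.card : ℝ) ^ 2 := mul_le_mul_of_nonneg_left h4 hc.le
    have h3 : c * (X.card : ℝ) ^ 2 ≤ ∑ v ∈ X, ((X.filter (fun w => G.Adj v w)).card : ℝ) := by
      rw [← B_ind]
      linarith
    obtain ⟨v, hvX, hv⟩ : ∃ v ∈ X, c * (X.card : ℝ) ≤ ((X.filter (fun w => G.Adj v w)).card : ℝ) := by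
      by_contra hcon
      push Not at hcon
      have hne : X.Nonempty := by
        rw [← Finset.card_pos]; exact_mod_cast hXpos
      have h4 := Finset.sum_lt_sum_of_nonempty hne hcon
      rw [Finset.sum_const, nsmul_eq_mul] at h4
      nlinarith
    have h5 : ρ ^ (K - j) * (n : ℝ) ≤ ((X.filter (fun w => G.Adj v w)).card : ℝ) := by
      have h6 : ρ ^ (K - j) = ρ * ρ ^ (K - (j + 1)) := by
        rw [← pow_succ']
        congr 1
        omega
      rw [h6]
      calc ρ * ρ ^ (K - (j + 1)) * (n : ℝ) = ρ * (ρ ^ (K - (j + 1)) * (n : ℝ)) := by ring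
        _ ≤ ρ * X.card := mul_le_mul_of_nonneg_left hX hρ0.le
        _ ≤ c * X.card := mul_le_mul_of_nonneg_right hρc hXpos.le
        _ ≤ _ := hv
    obtain ⟨t, htX, ht⟩ := ih (by omega) _ h5
    refine ⟨insert v t, ?_, ?_⟩
    · intro w hw
      rcases Finset.mem_insert.mp hw with rfl | hw
      · exact hvX
      · exact (Finset.mem_filter.mp (htX hw)).1
    · exact ht.insert fun b hb => (Finset.mem_filter.mp (htX hb)).2

/-- The theorem. -/
theorem main (c : ℝ) (hc : 0 < c) (k : ℕ) : ∃ ε : ℝ, 0 < ε ∧ ∃ N : ℕ, ∀ n : ℕ, N ≤ n →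
      ∀ G : SimpleGraph (Fin n),
        G.edgeSet.ncard = ⌊c * (n : ℝ) ^ 2⌋₊ →
        (∀ W : Finset (Fin n), W.card = n / 2 →
          (1 - ε) * c * ((n : ℝ) / 2) ^ 2 ≤
            (({e : Sym2 (Fin n) | e ∈ G.edgeSet ∧ ∀ v ∈ e, v ∈ W}).ncard : ℝ)) →
        ∃ s : Finset (Fin n), G.IsNClique k s := by
  classical
  set ρ : ℝ := min c 1 with hρ
  have hρ0 : 0 < ρ := lt_min hc one_pos
  have hρ1 : ρ ≤ 1 := min_le_right _ _
  have hρc : ρ ≤ c := min_le_left _ _
  set s : ℝ := ρ * (ρ ^ k) ^ 2 / 57 with hs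
  have hs0 : 0 < s := by positivity
  have hpow : ρ ^ k ≤ 1 := pow_le_one₀ hρ0.le hρ1
  have hpow0 : 0 < ρ ^ k := by positivity
  have hprod : ρ * (ρ ^ k) ^ 2 ≤ 1 := by
    have : (ρ ^ k) ^ 2 ≤ 1 := by nlinarith
    have h0 : 0 ≤ (ρ ^ k) ^ 2 := sq_nonneg _
    nlinarith
  have hs3 : s ≤ 1 / 3 := by rw [hs]; linarith
  have hs19 : 19 * s ≤ c * (ρ ^ k) ^ 2 := by
    have h0 : 0 ≤ (ρ ^ k) ^ 2 := sq_nonneg _
    have h1 : ρ * (ρ ^ k) ^ 2 ≤ c * (ρ ^ k) ^ 2 := mul_le_mul_of_nonneg_right hρc h0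
    have h2 : 0 ≤ c * (ρ ^ k) ^ 2 := by positivity
    rw [hs]; linarith
  refine ⟨2 * s ^ 2 / c, by positivity, max 3 ⌈2 / s⌉₊, ?_⟩
  intro n hN G hcard hW
  have hn3 : 3 ≤ n := le_trans (le_max_left _ _) hN
  have hns : 2 / s ≤ n := (Nat.le_ceil _).trans (by exact_mod_cast le_trans (le_max_right _ _) hN)
  have hn1 : (1 : ℝ) ≤ n := by exact_mod_cast (by omega : 1 ≤ n)
  have hsn : 2 ≤ s * (n : ℝ) ^ 2 := by
    rw [div_le_iff₀ hs0] at hns
    nlinarith
  -- totals
  have htot : B G (fun _ => (1 : ℝ)) (fun _ => 1) = 2 * (⌊c * (n : ℝ) ^ 2⌋₊ : ℝ) := by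
    have h := ncard_inside G Finset.univ
    simp only [Finset.mem_univ, if_true, implies_true, and_true] at h
    rw [h]
    have h2 : {e : Sym2 (Fin n) | e ∈ G.edgeSet} = G.edgeSet := rfl
    rw [h2, hcard]
  have hcn : 0 ≤ c * (n : ℝ) ^ 2 := by positivity
  have htot1 : B G (fun _ => (1 : ℝ)) (fun _ => 1) ≤ 2 * c * (n : ℝ) ^ 2 := by
    rw [htot]
    have := Nat.floor_le hcn
    linarith
  have htot2 : 2 * c * (n : ℝ) ^ 2 - 2 ≤ B G (fun _ => (1 : ℝ)) (fun _ => 1) := by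
    rw [htot]
    have := Nat.lt_floor_add_one (c * (n : ℝ) ^ 2)
    linarith
  have hlow : ∀ f : Fin n → ℝ, (∀ v, 0 ≤ f v ∧ f v ≤ 1) → ∑ v, f v = ((n / 2 : ℕ) : ℝ) →
      (1 - 2 * s ^ 2 / c) * c * (n : ℝ) ^ 2 / 2 ≤ B G f f := by
    intro f hf hsum
    obtain ⟨W, hWc, hWQ⟩ := pipage G (n / 2) _ f hf hsum rfl
    refine le_trans ?_ hWQ
    rw [ncard_inside]
    have := hW W hWc
    nlinarith
  have hden := main_ineq G c (2 * s ^ 2 / c) s (((n / 2 : ℕ) : ℝ) / n) hn3 hc hs0 hs3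
    (by field_simp; exact le_refl _) rfl hsn hlow htot1 htot2
  obtain ⟨t, _, ht⟩ := greedy G c ρ s k (by omega) hc hρ0 hρ1 hρc hs19 hden k le_rfl Finset.univ
    (by simp)
  exact ⟨t, ht⟩

end Pool.Agent.H99.HalfDense
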